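import Mathlib

open MvPolynomial

namespace Pool.Agent.Results.MP_52e642_an.WeakShanks

/-- Position, counted from `0`, of the monomial `z₁ ^ m 0 * z₂ ^ m 1` in the
degree-lexicographic sequence `1, z₁, z₂, z₁², z₁z₂, z₂², z₁³, …`. -/
def pos (m : Fin 2 →₀ ℕ) : ℕ := (m 0 + m 1) * (m 0 + m 1 + 1) / 2 + m 1

/-- `p ∈ 𝒫ₙ`: all monomials of `p` are among the first `n + 1` ones. -/
def InP (n : ℕ) (p : MvPolynomial (Fin 2) ℂ) : Prop := ∀ m ∈ p.support, pos m ≤ n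

/-- The squared norm of a polynomial in the Hardy space `H²(𝔻²)`. -/
noncomputable def normSq (p : MvPolynomial (Fin 2) ℂ) : ℝ := ∑ m ∈ p.support, ‖p.coeff m‖ ^ 2

/-- `q` is an `n`-th optimal polynomial approximant of `1 / f` in `H²(𝔻²)`. -/
def IsOPA (n : ℕ) (f q : MvPolynomial (Fin 2) ℂ) : Prop :=
  InP n q ∧ ∀ p, InP n p → normSq (q * f - 1) ≤ normSq (p * f - 1)

end Pool.Agent.Results.MP_52e642_an.WeakShanks
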