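import Pool.Agent.H58.Shanks.Defs

open MvPolynomial

namespace Pool.Agent.Results.MP_52e642_an.WeakShanks

section Hilbert

/-- The sequence space `ℓ²(ℕ²)`. -/
noncomputable abbrev Hs := lp (fun _ : (Fin 2 →₀ ℕ) => ℂ) 2

noncomputable def bs : HilbertBasis (Fin 2 →₀ ℕ) ℂ Hs := ⟨LinearIsometryEquiv.refl ℂ _⟩

noncomputable def L : MvPolynomial (Fin 2) ℂ →ₗ[ℂ] Hs :=
  (basisMonomials (Fin 2) ℂ).constr ℂ bs

lemma L_monomial (m : Fin 2 →₀ ℕ) (c : ℂ) : L (monomial m c) = c • bs m := by
  have h1 : L (monomial m 1) = bs m := by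
    have := (basisMonomials (Fin 2) ℂ).constr_basis ℂ bs m
    rw [coe_basisMonomials] at this
    exact this
  have h2 : (monomial m c : MvPolynomial (Fin 2) ℂ) = c • monomial m 1 := by
    rw [smul_monomial, smul_eq_mul, mul_one]
  rw [h2, map_smul, h1]

lemma L_eq_sum (p : MvPolynomial (Fin 2) ℂ) : L p = ∑ m ∈ p.support, coeff m p • bs m := by
  conv_lhs => rw [p.as_sum]
  rw [map_sum]
  exact Finset.sum_congr rfl fun m _ => L_monomial m _

lemma inner_bs_bs (m m' : Fin 2 →₀ ℕ) :
    inner ℂ (bs m) (bs m') = if m = m' then (1 : ℂ) else 0 :=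
  orthonormal_iff_ite.mp bs.orthonormal m m'

lemma inner_bs_L (m : Fin 2 →₀ ℕ) (q : MvPolynomial (Fin 2) ℂ) :
    inner ℂ (bs m) (L q) = coeff m q := by
  rw [L_eq_sum, inner_sum]
  simp only [inner_smul_right, inner_bs_bs]
  by_cases h : coeff m q = 0
  · simp [h]
  · simp [h]

lemma inner_L (p q : MvPolynomial (Fin 2) ℂ) :
    inner ℂ (L p) (L q) = ∑ m ∈ p.support, (starRingEnd ℂ) (coeff m p) * coeff m q := by
  rw [L_eq_sum p, sum_inner]
  refine Finset.sum_congr rfl fun m _ => ?_
  rw [inner_smul_left, inner_bs_L]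

lemma normSq_eq (p : MvPolynomial (Fin 2) ℂ) : normSq p = ‖L p‖ ^ 2 := by
  have h := inner_L p p
  have h2 : inner ℂ (L p) (L p) = ((‖L p‖ ^ 2 : ℝ) : ℂ) := by
    rw [inner_self_eq_norm_sq_to_K]; norm_cast
  rw [h2] at h
  have : ((‖L p‖ ^ 2 : ℝ) : ℂ) = ((normSq p : ℝ) : ℂ) := by
    rw [h, normSq]
    push_cast
    refine Finset.sum_congr rfl fun m _ => ?_
    rw [← Complex.normSq_eq_conj_mul_self, Complex.normSq_eq_norm_sq]
    norm_cast
  exact_mod_cast this.symm

lemma L_injective {p : MvPolynomial (Fin 2) ℂ} (h : L p = 0) : p = 0 := by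
  ext m
  rw [← inner_bs_L, h, inner_zero_right, coeff_zero]

end Hilbert

/-! ### Orthogonality characterisation of the minimiser -/

section Ortho

lemma InP_monomial {n : ℕ} {m : Fin 2 →₀ ℕ} (hm : pos m ≤ n) (c : ℂ) :
    InP n (monomial m c) := by
  intro m' hm'
  have := support_monomial_subset hm'
  rw [Finset.mem_singleton] at this
  rwa [this]

lemma InP_add {n : ℕ} {p q : MvPolynomial (Fin 2) ℂ} (hp : InP n p) (hq : InP n q) :
    InP n (p + q) := by
  intro m hm
  rcases Finset.mem_union.mp (support_add hm) with h | h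
  · exact hp m h
  · exact hq m h

lemma InP_C_mul {n : ℕ} {p : MvPolynomial (Fin 2) ℂ} (hp : InP n p) (c : ℂ) :
    InP n (C c * p) := by
  intro m hm
  apply hp m
  rw [mem_support_iff, coeff_C_mul] at hm
  rw [mem_support_iff]
  exact right_ne_zero_of_mul hm

lemma InP_sub {n : ℕ} {p q : MvPolynomial (Fin 2) ℂ} (hp : InP n p) (hq : InP n q) :
    InP n (p - q) := by
  have h : p - q = p + C (-1) * q := by
    rw [C_neg, C_1]; ring
  rw [h]
  exact InP_add hp (InP_C_mul hq _)

lemma inner_mul_eq_zero {n : ℕ} {f g r : MvPolynomial (Fin 2) ℂ}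
    (h : ∀ m, pos m ≤ n → inner ℂ (L (monomial m 1 * f)) (L r) = 0) (hg : InP n g) :
    inner ℂ (L (g * f)) (L r) = 0 := by
  have hgf : g * f = ∑ m ∈ g.support, C (coeff m g) * (monomial m 1 * f) := by
    conv_lhs => rw [g.as_sum, Finset.sum_mul]
    refine Finset.sum_congr rfl fun m _ => ?_
    rw [← mul_assoc, C_mul_monomial, mul_one]
  rw [hgf, map_sum, sum_inner]
  refine Finset.sum_eq_zero fun m hm => ?_
  rw [← smul_eq_C_mul, map_smul, inner_smul_left, h m (hg m hm), mul_zero]

lemma isOPA_of_ortho {n : ℕ} {f q : MvPolynomial (Fin 2) ℂ} (hq : InP n q)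
    (h : ∀ m, pos m ≤ n → inner ℂ (L (monomial m 1 * f)) (L (q * f - 1)) = 0) :
    IsOPA n f q := by
  refine ⟨hq, fun p hp => ?_⟩
  rw [normSq_eq, normSq_eq]
  have h1 : L (p * f - 1) = L ((p - q) * f) + L (q * f - 1) := by
    rw [← map_add]; congr 1; ring
  have h2 := inner_mul_eq_zero h (InP_sub hp hq)
  rw [h1, @norm_add_sq ℂ, h2]
  simp

lemma ortho_of_isOPA {n : ℕ} {f q : MvPolynomial (Fin 2) ℂ} (hq : IsOPA n f q)
    (m : Fin 2 →₀ ℕ) (hm : pos m ≤ n) :
    inner ℂ (L (monomial m 1 * f)) (L (q * f - 1)) = 0 := by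
  set y := L (monomial m 1 * f) with hy
  set x := L (q * f - 1) with hx
  by_cases hy0 : y = 0
  · rw [hy0, inner_zero_left]
  have hyn : (0 : ℝ) < ‖y‖ ^ 2 := by positivity
  by_contra hne
  set c : ℂ := inner ℂ y x with hc
  set t : ℂ := -(c / ((‖y‖ ^ 2 : ℝ) : ℂ)) with ht
  have hmin := hq.2 (q + C t * monomial m 1)
    (InP_add hq.1 (InP_C_mul (InP_monomial hm 1) t))
  rw [normSq_eq, normSq_eq] at hmin
  have h1 : L ((q + C t * monomial m 1) * f - 1) = x + t • y := by
    have : (q + C t * monomial m 1) * f - 1 = (q * f - 1) + C t * (monomial m 1 * f) := by ring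
    rw [this, map_add, ← smul_eq_C_mul, map_smul]
  rw [h1, @norm_add_sq ℂ, norm_smul, inner_smul_right] at hmin
  have h2 : inner ℂ x y = (starRingEnd ℂ) c := by rw [hc, inner_conj_symm]
  have h3 : RCLike.re (t * inner ℂ x y) = -(‖c‖ ^ 2 / ‖y‖ ^ 2) := by
    rw [h2, ht]
    have : -(c / ((‖y‖ ^ 2 : ℝ) : ℂ)) * (starRingEnd ℂ) c = ((-(‖c‖ ^ 2 / ‖y‖ ^ 2) : ℝ) : ℂ) := by
      have h4 : c * (starRingEnd ℂ) c = ((‖c‖ ^ 2 : ℝ) : ℂ) := by
        rw [Complex.mul_conj, Complex.normSq_eq_norm_sq]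
      push_cast at h4 ⊢
      rw [← h4]; ring
    rw [this]
    exact Complex.ofReal_re _
  have h5 : ‖t‖ ^ 2 * ‖y‖ ^ 2 = ‖c‖ ^ 2 / ‖y‖ ^ 2 := by
    rw [ht, norm_neg, norm_div, Complex.norm_real, Real.norm_of_nonneg hyn.le]
    field_simp
  rw [h3, mul_pow, h5] at hmin
  have h6 : (0 : ℝ) < ‖c‖ ^ 2 / ‖y‖ ^ 2 := by
    have : 0 < ‖c‖ := norm_pos_iff.mpr hne
    positivity
  linarith

end Ortho

/-! ### The indices `n = 0` and `n = 1` -/

section Low

lemma pos_le_one {m : Fin 2 →₀ ℕ} (hm : pos m ≤ 1) : m = 0 ∨ m = Finsupp.single 0 1 := by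
  unfold pos at hm
  have h0 : m 1 = 0 ∨ m 1 = 1 := by omega
  have key : m 0 + m 1 ≤ 1 := by
    by_contra hcon
    push Not at hcon
    have : 3 ≤ (m 0 + m 1) * (m 0 + m 1 + 1) / 2 := by
      rw [Nat.le_div_iff_mul_le (by norm_num)]
      nlinarith
    omega
  rcases h0 with h1 | h1
  · have h2 : m 0 = 0 ∨ m 0 = 1 := by omega
    rcases h2 with h2 | h2
    · left; ext i; fin_cases i <;> simp [h1, h2]
    · right; ext i; fin_cases i <;> simp [h1, h2]
  · have h2 : m 0 = 0 := by omega
    rw [h1, h2] at hm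
    norm_num at hm

lemma low {n : ℕ} (hn : n ≤ 1) {f q : MvPolynomial (Fin 2) ℂ}
    (hf : ∀ z : Fin 2 → ℂ, (∀ i, ‖z i‖ ≤ 1) → eval z f ≠ 0) (hq : IsOPA n f q)
    (z : Fin 2 → ℂ) (hz : ∀ i, ‖z i‖ < 1) : eval z q ≠ 0 := by
  intro hzero
  -- `q = c₀ + c₁ z₁`
  set e : Fin 2 →₀ ℕ := Finsupp.single 0 1 with he
  have hq1 : q = C (coeff 0 q) + C (coeff e q) * monomial e 1 := by
    ext m
    rw [coeff_add, C_mul_monomial, mul_one, coeff_monomial, coeff_C]
    by_cases hm : m ∈ q.support
    · rcases pos_le_one ((hq.1 m hm).trans hn) with rfl | rfl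
      · have : ¬ e = 0 := by rw [he]; simp
        simp [this]
      · have : ¬ (0 = Finsupp.single (0 : Fin 2) 1) := by intro h; simpa using h.symm
        simp [this, he]
    · rw [notMem_support_iff] at hm
      rw [hm]
      by_cases h1 : 0 = m
      · subst h1
        have : ¬ e = 0 := by rw [he]; simp
        simp [this, hm]
      · by_cases h2 : e = m
        · subst h2; simp [h1, hm]
        · simp [h1, h2]
  set c0 := coeff 0 q with hc0
  set c1 := coeff e q with hc1
  have hev : c0 + c1 * z 0 = 0 := by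
    rw [hq1] at hzero
    simpa [he, eval_monomial] using hzero
  -- `f 0 ≠ 0`
  have hf0 : coeff 0 f ≠ 0 := by
    have := hf 0 (by simp)
    rwa [← constantCoeff_eq, ← eval_zero]
  have hLf : L f ≠ 0 := by
    intro h
    apply hf0
    rw [L_injective h, coeff_zero]
  -- normal equation at `1`
  have hN0 := ortho_of_isOPA hq 0 (by simp [pos])
  have hone : (monomial (0 : Fin 2 →₀ ℕ) (1 : ℂ)) * f = f := by
    rw [monomial_zero', C_1, one_mul]
  rw [hone] at hN0
  have hLone : L (1 : MvPolynomial (Fin 2) ℂ) = bs 0 := by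
    have := L_monomial 0 1
    rwa [monomial_zero', C_1, one_smul] at this
  have hN0' : inner ℂ (L f) (L (q * f)) = (starRingEnd ℂ) (coeff 0 f) := by
    have h1 : inner ℂ (L f) (L (q * f - 1)) =
        inner ℂ (L f) (L (q * f)) - inner ℂ (L f) (L 1) := by
      rw [map_sub, inner_sub_right]
    rw [h1] at hN0
    rw [sub_eq_zero.mp hN0, hLone, ← inner_conj_symm, inner_bs_L]
  have hqf : q * f = C c0 * f + C c1 * (monomial e 1 * f) := by
    conv_lhs => rw [hq1]
    ring
  have hLqf : L (q * f) = c0 • L f + c1 • L (monomial e 1 * f) := by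
    rw [hqf, map_add, ← smul_eq_C_mul, ← smul_eq_C_mul, map_smul, map_smul]
  by_cases hc1z : c1 = 0
  · have hc0z : c0 = 0 := by simpa [hc1z] using hev
    rw [hLqf, hc0z, hc1z] at hN0'
    simp only [zero_smul, add_zero, inner_zero_right] at hN0'
    have := hN0'.symm
    rw [map_eq_zero] at this
    exact hf0 this
  · -- then `n = 1` and there is a second normal equation
    have hn1 : pos e ≤ n := hq.1 e (by rw [mem_support_iff]; exact hc1z)
    have hN1 := ortho_of_isOPA hq e hn1
    have hne : inner ℂ (L (monomial e 1 * f)) (L (1 : MvPolynomial (Fin 2) ℂ)) = 0 := by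
      rw [hLone, ← inner_conj_symm, inner_bs_L, coeff_monomial_mul']
      have : ¬ e ≤ 0 := by
        intro h
        have := h 0
        simp [he] at this
      simp [this]
    rw [map_sub, inner_sub_right, hne, sub_zero, hLqf, inner_add_right, inner_smul_right,
      inner_smul_right] at hN1
    -- norms
    have hnorm : ‖L (monomial e 1 * f)‖ = ‖L f‖ := by
      have h1 : normSq (monomial e 1 * f) = normSq f := by
        unfold normSq
        have hX : (monomial e 1 : MvPolynomial (Fin 2) ℂ) = X 0 := rfl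
        rw [hX, mul_comm, support_mul_X, Finset.sum_map]
        refine Finset.sum_congr rfl fun m _ => ?_
        rw [addRightEmbedding_apply, coeff_mul_X]
      rw [normSq_eq, normSq_eq] at h1
      exact (sq_eq_sq₀ (norm_nonneg _) (norm_nonneg _)).mp h1
    set w : ℂ := inner ℂ (L (monomial e 1 * f)) (L f) with hw
    have hww : inner ℂ (L (monomial e 1 * f)) (L (monomial e 1 * f)) = ((‖L f‖ ^ 2 : ℝ) : ℂ) := by
      rw [inner_self_eq_norm_sq_to_K, hnorm]; norm_cast
    rw [hww] at hN1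
    have hwn : ‖w‖ ≤ ‖L f‖ ^ 2 := by
      have := norm_inner_le_norm (𝕜 := ℂ) (L (monomial e 1 * f)) (L f)
      rw [hnorm] at this
      rw [sq]; exact this
    have hc0' : c0 = -(c1 * z 0) := by linear_combination hev
    rw [hc0'] at hN1
    have hN1' : c1 * (((‖L f‖ ^ 2 : ℝ) : ℂ) - z 0 * w) = 0 := by linear_combination hN1
    rcases mul_eq_zero.mp hN1' with h | h
    · exact hc1z h
    · have h2 : ((‖L f‖ ^ 2 : ℝ) : ℂ) = z 0 * w := by linear_combination h
      have h3 : ‖L f‖ ^ 2 = ‖z 0‖ * ‖w‖ := by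
        have := congrArg norm h2
        rw [Complex.norm_real, norm_mul, Real.norm_of_nonneg (by positivity)] at this
        exact this
      have h4 : 0 < ‖L f‖ ^ 2 := by
        have : 0 < ‖L f‖ := norm_pos_iff.mpr hLf
        positivity
      have h5 := hz 0
      nlinarith [norm_nonneg w, norm_nonneg (z 0)]

end Low

/-! ### The indices `n ≥ 2` -/

section High

/-- The exponent vector of `u ^ i * v ^ j`, where `u = z₁ ^ a`, `v = z₂ ^ b`. -/
noncomputable def E (a b i j : ℕ) : Fin 2 →₀ ℕ :=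
  Finsupp.single 0 (a * i) + Finsupp.single 1 (b * j)

lemma E_zero (a b i j : ℕ) : E a b i j 0 = a * i := by simp [E]

lemma E_one (a b i j : ℕ) : E a b i j 1 = b * j := by simp [E]

lemma E_add (a b i j k l : ℕ) : E a b i j + E a b k l = E a b (i + k) (j + l) := by
  ext x
  fin_cases x
  · simp [E_zero, mul_add]
  · simp [E_one, mul_add]

lemma E_inj {a b : ℕ} (ha : 0 < a) (hb : 0 < b) {i j k l : ℕ} :
    E a b i j = E a b k l ↔ (i, j) = (k, l) := by
  constructor
  · intro h
    have h0 := DFunLike.congr_fun h 0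
    have h1 := DFunLike.congr_fun h 1
    rw [E_zero, E_zero] at h0
    rw [E_one, E_one] at h1
    rw [Nat.eq_of_mul_eq_mul_left ha h0, Nat.eq_of_mul_eq_mul_left hb h1]
  · intro h
    rw [Prod.mk.injEq] at h
    rw [h.1, h.2]

/-- The coefficients of `(2 + u v) ^ 4 * (17 + 8 u + 8 v)`. -/
def tab : List ((ℕ × ℕ) × ℤ) :=
  [((0, 0), 272), ((0, 1), 128), ((1, 0), 128), ((1, 1), 544), ((1, 2), 256), ((2, 1), 256),
   ((2, 2), 408), ((2, 3), 192), ((3, 2), 192), ((3, 3), 136), ((3, 4), 64), ((4, 3), 64),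
   ((4, 4), 17), ((4, 5), 8), ((5, 4), 8)]

/-- The polynomial `∑ c_{ij} u ^ i v ^ j` attached to a table of coefficients. -/
noncomputable def poly (a b : ℕ) (t : List ((ℕ × ℕ) × ℤ)) : MvPolynomial (Fin 2) ℂ :=
  (t.map fun x => monomial (E a b x.1.1 x.1.2) (x.2 : ℂ)).sum

/-- The scalar product of `u ^ i v ^ j F` and `u ^ k v ^ l G`. -/
def corr (i j k l : ℕ) (s t : List ((ℕ × ℕ) × ℤ)) : ℤ :=
  (s.map fun x => (t.map fun y =>
    if (i + x.1.1, j + x.1.2) = (k + y.1.1, l + y.1.2) then x.2 * y.2 else 0).sum).sum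

lemma inner_monomial_poly {a b : ℕ} (ha : 0 < a) (hb : 0 < b) (i j k l : ℕ) (c : ℤ)
    (t : List ((ℕ × ℕ) × ℤ)) :
    inner ℂ (L (monomial (E a b i j) (c : ℂ))) (L (monomial (E a b k l) 1 * poly a b t)) =
      (((t.map fun y => if (i, j) = (k + y.1.1, l + y.1.2) then c * y.2 else 0).sum : ℤ) : ℂ) := by
  induction t with
  | nil => simp [poly]
  | cons y t ih =>
    have h1 : poly a b (y :: t) = monomial (E a b y.1.1 y.1.2) (y.2 : ℂ) + poly a b t := by
      simp [poly]
    rw [h1, mul_add, map_add, inner_add_right, ih, monomial_mul, one_mul, L_monomial, L_monomial,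
      inner_smul_left, inner_smul_right, inner_bs_bs, E_add, List.map_cons, List.sum_cons]
    push_cast
    congr 1
    by_cases h : (i, j) = (k + y.1.1, l + y.1.2)
    · rw [if_pos h, if_pos ((E_inj ha hb).mpr h)]
      simp
    · rw [if_neg h, if_neg (fun h' => h ((E_inj ha hb).mp h'))]
      simp

lemma inner_poly_poly {a b : ℕ} (ha : 0 < a) (hb : 0 < b) (i j k l : ℕ)
    (s t : List ((ℕ × ℕ) × ℤ)) :
    inner ℂ (L (monomial (E a b i j) 1 * poly a b s)) (L (monomial (E a b k l) 1 * poly a b t)) =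
      ((corr i j k l s t : ℤ) : ℂ) := by
  induction s with
  | nil => simp [poly, corr]
  | cons x s ih =>
    have h1 : poly a b (x :: s) = monomial (E a b x.1.1 x.1.2) (x.2 : ℂ) + poly a b s := by
      simp [poly]
    have h2 : corr i j k l (x :: s) t = (t.map fun y =>
        if (i + x.1.1, j + x.1.2) = (k + y.1.1, l + y.1.2) then x.2 * y.2 else 0).sum +
        corr i j k l s t := by
      simp [corr]
    rw [h1, mul_add, map_add, inner_add_left, ih, monomial_mul, one_mul, E_add,
      inner_monomial_poly ha hb, h2]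
    push_cast
    ring

/-- If `m` is not an exponent vector of a monomial in `u, v` then `z ^ m F` is orthogonal to
every polynomial in `u, v`. -/
lemma inner_off {a b : ℕ} (m : Fin 2 →₀ ℕ) (hm : ∀ i j, m ≠ E a b i j)
    (k l : ℕ) (s t : List ((ℕ × ℕ) × ℤ)) :
    inner ℂ (L (monomial m 1 * poly a b s)) (L (monomial (E a b k l) 1 * poly a b t)) = 0 := by
  have key : ∀ i j k l, m + E a b i j ≠ E a b k l := by
    intro i j k l h
    have h0 := DFunLike.congr_fun h 0
    have h1 := DFunLike.congr_fun h 1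
    rw [Finsupp.add_apply, E_zero, E_zero] at h0
    rw [Finsupp.add_apply, E_one, E_one] at h1
    apply hm (k - i) (l - j)
    ext x
    fin_cases x
    · change m 0 = E a b (k - i) (l - j) 0
      rw [E_zero, Nat.mul_sub]; omega
    · change m 1 = E a b (k - i) (l - j) 1
      rw [E_one, Nat.mul_sub]; omega
  induction s with
  | nil => simp [poly]
  | cons x s ih =>
    have h1 : poly a b (x :: s) = monomial (E a b x.1.1 x.1.2) (x.2 : ℂ) + poly a b s := by
      simp [poly]
    rw [h1, mul_add, map_add, inner_add_left, ih, add_zero, monomial_mul, one_mul]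
    clear ih h1
    induction t with
    | nil => simp [poly]
    | cons y t ih =>
      have h1 : poly a b (y :: t) = monomial (E a b y.1.1 y.1.2) (y.2 : ℂ) + poly a b t := by
        simp [poly]
      rw [h1, mul_add, map_add, inner_add_right, ih, add_zero, monomial_mul, one_mul, L_monomial,
        L_monomial, inner_smul_left, inner_smul_right, inner_bs_bs, E_add, if_neg (key _ _ _ _)]
      simp

lemma poly_one (a b : ℕ) : poly a b [((0, 0), 1)] = 1 := by
  have h : E a b 0 0 = 0 := by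
    ext x
    fin_cases x
    · simp [E_zero]
    · simp [E_one]
  simp [poly, h]

/-- Triangular numbers. -/
def T (k : ℕ) : ℕ := k * (k + 1) / 2

lemma T_succ (k : ℕ) : T (k + 1) = T k + (k + 1) := by
  unfold T
  have h : (k + 1) * (k + 1 + 1) = k * (k + 1) + (k + 1) * 2 := by ring
  rw [h, Nat.add_mul_div_right _ _ (by norm_num)]

lemma T_mono : Monotone T := monotone_nat_of_le_succ fun k => by rw [T_succ]; omega

lemma pos_eq (m : Fin 2 →₀ ℕ) : pos m = T (m 0 + m 1) + m 1 := rfl

lemma exists_ab {n : ℕ} (hn : 2 ≤ n) : ∃ a b : ℕ, 1 ≤ b ∧ 1 ≤ a ∧ T a ≤ n ∧ n < T (a + 1) ∧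
    T b + b ≤ n ∧ n < T (b + 1) + (b + 1) := by
  have hex : ∃ a, n < T (a + 1) := by
    refine ⟨n, ?_⟩
    rw [T_succ]; omega
  classical
  let a := Nat.find hex
  have ha1 : n < T (a + 1) := Nat.find_spec hex
  have ha0 : 2 ≤ a ∨ a = 1 := by
    by_contra hcon
    have : a = 0 := by omega
    rw [this] at ha1
    have : T (0 + 1) = 1 := rfl
    omega
  have ha2 : T a ≤ n := by
    have h1 : a - 1 < a := by omega
    have := Nat.find_min hex h1
    rw [not_lt] at this
    have h2 : a - 1 + 1 = a := by omega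
    rwa [h2] at this
  by_cases h : T a + a ≤ n
  · refine ⟨a, a, by omega, by omega, ha2, ha1, h, by omega⟩
  · have h3 : a ≠ 1 := by
      rintro h3
      rw [h3] at h
      have : T 1 = 1 := rfl
      omega
    have h4 : T (a - 1 + 1) = T (a - 1) + (a - 1 + 1) := T_succ _
    have h5 : a - 1 + 1 = a := by omega
    rw [h5] at h4
    refine ⟨a, a - 1, by omega, by omega, ha2, ha1, by omega, ?_⟩
    rw [h5]
    omega

lemma low_exponents {n a b : ℕ} (hb : 1 ≤ b) (ha : 1 ≤ a) (h2 : n < T (a + 1))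
    (h4 : n < T (b + 1) + (b + 1)) {i j : ℕ} (h : pos (E a b i j) ≤ n) :
    (i = 0 ∧ j = 0) ∨ (i = 1 ∧ j = 0) ∨ (i = 0 ∧ j = 1) := by
  rw [pos_eq, E_zero, E_one] at h
  have h5 : a * i + b * j < a + 1 := by
    by_contra hcon
    push Not at hcon
    have := T_mono hcon
    omega
  rcases Nat.eq_zero_or_pos i with hi | hi
  · subst hi
    rcases Nat.lt_or_ge j 2 with hj | hj
    · omega
    · exfalso
      have h6 : b + 1 ≤ b * j := by nlinarith
      have := T_mono (a := b + 1) (b := a * 0 + b * j) (by omega)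
      omega
  · have hj : j = 0 := by
      by_contra hj
      have : 1 ≤ j := Nat.one_le_iff_ne_zero.mpr hj
      nlinarith
    have hi1 : i < 2 := by
      by_contra hi2
      push Not at hi2
      nlinarith
    omega

/-- The counterexample `(2 + u v) ^ 4 * (17 + 8 u + 8 v)` with `u = z₁ ^ a`, `v = z₂ ^ b`. -/
lemma eval_poly (a b : ℕ) (z : Fin 2 → ℂ) :
    eval z (poly a b tab) =
      (2 + z 0 ^ a * z 1 ^ b) ^ 4 * (17 + 8 * z 0 ^ a + 8 * z 1 ^ b) := by
  have h : ∀ (i j : ℕ) (c : ℤ), eval z (monomial (E a b i j) (c : ℂ)) =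
      c * ((z 0 ^ a) ^ i * (z 1 ^ b) ^ j) := by
    intro i j c
    rw [eval_monomial, Finsupp.prod_fintype _ _ (by simp), Fin.prod_univ_two, E_zero, E_one,
      pow_mul, pow_mul]
  simp only [poly, tab, List.map_cons, List.map_nil, List.sum_cons, List.sum_nil, map_add, h,
    map_zero]
  push_cast
  ring

lemma zeroFree {a b : ℕ} (z : Fin 2 → ℂ) (hz : ∀ i, ‖z i‖ ≤ 1) :
    eval z (poly a b tab) ≠ 0 := by
  rw [eval_poly]
  have hu : ‖z 0 ^ a‖ ≤ 1 := by
    rw [norm_pow]; exact pow_le_one₀ (norm_nonneg _) (hz 0)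
  have hv : ‖z 1 ^ b‖ ≤ 1 := by
    rw [norm_pow]; exact pow_le_one₀ (norm_nonneg _) (hz 1)
  set u := z 0 ^ a
  set v := z 1 ^ b
  apply mul_ne_zero
  · apply pow_ne_zero
    intro h
    have h1 : u * v = -2 := by linear_combination h
    have h2 : ‖u * v‖ = 2 := by rw [h1]; simp
    rw [norm_mul] at h2
    nlinarith [norm_nonneg u, norm_nonneg v]
  · intro h
    have h1 : 8 * (u + v) = -17 := by linear_combination h
    have h2 : ‖8 * (u + v)‖ = 17 := by rw [h1]; simp
    rw [norm_mul] at h2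
    have h3 := norm_add_le u v
    have h4 : ‖(8 : ℂ)‖ = 8 := by simp
    rw [h4] at h2
    linarith

/-- The (unnormalised) approximant. -/
noncomputable def qq (a b : ℕ) : MvPolynomial (Fin 2) ℂ :=
  C 924001 * monomial (E a b 0 0) 1 - C 462536 * (monomial (E a b 1 0) 1 + monomial (E a b 0 1) 1)

/-- The normalising constant. -/
noncomputable def κ : ℂ := 272 / (924001 * 801057 - 2 * 462536 ^ 2)

lemma high {n : ℕ} (hn : 2 ≤ n) : ∃ f q : MvPolynomial (Fin 2) ℂ,
    (∀ z : Fin 2 → ℂ, (∀ i, ‖z i‖ ≤ 1) → eval z f ≠ 0) ∧ IsOPA n f q ∧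
      ∃ z : Fin 2 → ℂ, (∀ i, ‖z i‖ < 1) ∧ eval z q = 0 := by
  obtain ⟨a, b, hb, ha, h1, h2, h3, h4⟩ := exists_ab hn
  have ha' : 0 < a := ha
  have hb' : 0 < b := hb
  have hE00 : E a b 0 0 = 0 := by
    ext x
    fin_cases x
    · simp [E_zero]
    · simp [E_one]
  refine ⟨poly a b tab, C κ * qq a b, zeroFree, isOPA_of_ortho ?_ ?_, ?_⟩
  · -- membership in `𝒫ₙ`
    apply InP_C_mul
    apply InP_sub
    · apply InP_C_mul
      apply InP_monomial
      rw [pos_eq, E_zero, E_one]
      simp [T]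
    · apply InP_C_mul
      apply InP_add
      · apply InP_monomial
        rw [pos_eq, E_zero, E_one]
        simpa using h1
      · apply InP_monomial
        rw [pos_eq, E_zero, E_one]
        simpa using h3
  · -- orthogonality
    intro m hm
    have hres : C κ * qq a b * poly a b tab - 1 =
        C (κ * 924001) * (monomial (E a b 0 0) 1 * poly a b tab)
        - C (κ * 462536) * (monomial (E a b 1 0) 1 * poly a b tab)
        - C (κ * 462536) * (monomial (E a b 0 1) 1 * poly a b tab)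
        - monomial (E a b 0 0) 1 * poly a b [((0, 0), 1)] := by
      rw [poly_one, qq, hE00, C_mul, C_mul]
      have : (monomial (0 : Fin 2 →₀ ℕ) (1 : ℂ)) = 1 := by rw [monomial_zero', C_1]
      rw [this]
      ring
    have hexp : ∀ g : MvPolynomial (Fin 2) ℂ, inner ℂ (L g) (L (C κ * qq a b * poly a b tab - 1)) =
        (κ * 924001) * inner ℂ (L g) (L (monomial (E a b 0 0) 1 * poly a b tab))
        - (κ * 462536) * inner ℂ (L g) (L (monomial (E a b 1 0) 1 * poly a b tab))
        - (κ * 462536) * inner ℂ (L g) (L (monomial (E a b 0 1) 1 * poly a b tab))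
        - inner ℂ (L g) (L (monomial (E a b 0 0) 1 * poly a b [((0, 0), 1)])) := by
      intro g
      rw [hres, map_sub, map_sub, map_sub, ← smul_eq_C_mul, ← smul_eq_C_mul, ← smul_eq_C_mul,
        map_smul, map_smul, map_smul, inner_sub_right, inner_sub_right, inner_sub_right,
        inner_smul_right, inner_smul_right, inner_smul_right]
    rw [hexp]
    by_cases hmE : ∃ i j, m = E a b i j
    · obtain ⟨i, j, rfl⟩ := hmE
      rw [inner_poly_poly ha' hb', inner_poly_poly ha' hb', inner_poly_poly ha' hb',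
        inner_poly_poly ha' hb']
      have hκ : (924001 * 801057 - 2 * 462536 ^ 2 : ℂ) ≠ 0 := by norm_num
      rcases low_exponents hb ha h2 h4 hm with ⟨rfl, rfl⟩ | ⟨rfl, rfl⟩ | ⟨rfl, rfl⟩
      · have e1 : corr 0 0 0 0 tab tab = 801057 := by decide +kernel
        have e2 : corr 0 0 1 0 tab tab = 462536 := by decide +kernel
        have e3 : corr 0 0 0 1 tab tab = 462536 := by decide +kernel
        have e4 : corr 0 0 0 0 tab [((0, 0), 1)] = 272 := by decide +kernel
        rw [e1, e2, e3, e4]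
        unfold κ
        push_cast
        field_simp
        ring
      · have e1 : corr 1 0 0 0 tab tab = 462536 := by decide +kernel
        have e2 : corr 1 0 1 0 tab tab = 801057 := by decide +kernel
        have e3 : corr 1 0 0 1 tab tab = 122944 := by decide +kernel
        have e4 : corr 1 0 0 0 tab [((0, 0), 1)] = 0 := by decide +kernel
        rw [e1, e2, e3, e4]
        push_cast
        ring
      · have e1 : corr 0 1 0 0 tab tab = 462536 := by decide +kernel
        have e2 : corr 0 1 1 0 tab tab = 122944 := by decide +kernel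
        have e3 : corr 0 1 0 1 tab tab = 801057 := by decide +kernel
        have e4 : corr 0 1 0 0 tab [((0, 0), 1)] = 0 := by decide +kernel
        rw [e1, e2, e3, e4]
        push_cast
        ring
    · push Not at hmE
      rw [inner_off m hmE, inner_off m hmE, inner_off m hmE, inner_off m hmE]
      ring
  · -- the zero
    set t : ℝ := 924001 / 925072 with ht
    have ht0 : 0 < t := by rw [ht]; norm_num
    have ht1 : t < 1 := by rw [ht]; norm_num
    have hpow : ∀ d : ℕ, 0 < d → ∃ x : ℝ, 0 ≤ x ∧ x < 1 ∧ x ^ d = t := by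
      intro d hd
      refine ⟨t ^ ((d : ℝ)⁻¹), Real.rpow_nonneg ht0.le _, ?_, ?_⟩
      · exact Real.rpow_lt_one ht0.le ht1 (by positivity)
      · exact Real.rpow_inv_natCast_pow ht0.le hd.ne'
    obtain ⟨x, hx0, hx1, hxt⟩ := hpow a ha'
    obtain ⟨y, hy0, hy1, hyt⟩ := hpow b hb'
    refine ⟨![(x : ℂ), (y : ℂ)], ?_, ?_⟩
    · intro i
      fin_cases i
      · simpa [abs_of_nonneg hx0] using hx1
      · simpa [abs_of_nonneg hy0] using hy1
    · have h : ∀ (i j : ℕ), eval ![(x : ℂ), (y : ℂ)] (monomial (E a b i j) (1 : ℂ)) =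
          (((x ^ a) ^ i * (y ^ b) ^ j : ℝ) : ℂ) := by
        intro i j
        rw [eval_monomial, Finsupp.prod_fintype _ _ (by simp), Fin.prod_univ_two, E_zero, E_one,
          pow_mul, pow_mul]
        simp
      rw [eval_mul, qq, eval_sub, eval_mul, eval_mul, eval_add, h, h, h, hxt, hyt, ht]
      simp only [eval_C]
      push_cast
      ring

end High

/-! ### Existence and uniqueness of the approximant -/

section Unique

lemma finite_pos (n : ℕ) : {m : Fin 2 →₀ ℕ | pos m ≤ n}.Finite := by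
  refine Set.Finite.of_finite_image (f := fun m : Fin 2 →₀ ℕ => (m 0, m 1)) ?_ ?_
  · refine Set.Finite.subset (Set.finite_Iic (2 * n + 1, n)) ?_
    rintro _ ⟨m, hm, rfl⟩
    simp only [Set.mem_ofPred_eq, pos] at hm
    refine ⟨?_, ?_⟩
    · change m 0 ≤ 2 * n + 1
      by_contra hcon
      push Not at hcon
      have : n + 1 ≤ (m 0 + m 1) * (m 0 + m 1 + 1) / 2 := by
        rw [Nat.le_div_iff_mul_le (by norm_num)]
        nlinarith
      omega
    · change m 1 ≤ n
      omega
  · intro m _ m' _ h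
    simp only [Prod.mk.injEq] at h
    ext i
    fin_cases i
    · exact h.1
    · exact h.2

/-- For `f ≠ 0` there is exactly one `n`-th optimal polynomial approximant of `1 / f`. -/
theorem existsUnique_isOPA (n : ℕ) {f : MvPolynomial (Fin 2) ℂ} (hf : f ≠ 0) :
    ∃! q, IsOPA n f q := by
  classical
  let s : Finset (Fin 2 →₀ ℕ) := (finite_pos n).toFinset
  let V : Submodule ℂ (MvPolynomial (Fin 2) ℂ) :=
    Submodule.span ℂ ((fun m => monomial m (1 : ℂ)) '' (s : Set (Fin 2 →₀ ℕ)))
  let Φ : MvPolynomial (Fin 2) ℂ →ₗ[ℂ] Hs := L.comp (LinearMap.mulRight ℂ f)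
  have hΦ : ∀ g, Φ g = L (g * f) := fun g => rfl
  have : FiniteDimensional ℂ V :=
    FiniteDimensional.span_of_finite ℂ ((Finset.finite_toSet s).image _)
  let W : Submodule ℂ Hs := V.map Φ
  have : FiniteDimensional ℂ W := inferInstance
  obtain ⟨w, hw, hw2⟩ : ∃ w ∈ W, ∀ y ∈ W, inner ℂ y (w - L 1) = 0 := by
    refine ⟨W.starProjection (L 1), W.starProjection_apply_mem _, fun y hy => ?_⟩
    have h := Submodule.sub_starProjection_mem_orthogonal (K := W) (L 1)
    rw [Submodule.mem_orthogonal] at h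
    have := h y hy
    rw [← neg_sub, inner_neg_right, this, neg_zero]
  obtain ⟨q, hqV, hqw⟩ := hw
  rw [hΦ] at hqw
  have hVP : ∀ g ∈ V, InP n g := by
    intro g hg
    refine Submodule.span_induction ?_ ?_ ?_ ?_ hg
    · rintro _ ⟨m, hm, rfl⟩
      exact InP_monomial (by simpa [s] using hm) 1
    · intro m hm; simp at hm
    · intro x y _ _ hx hy; exact InP_add hx hy
    · intro c x _ hx; rw [smul_eq_C_mul]; exact InP_C_mul hx c
  have hq : IsOPA n f q := by
    refine isOPA_of_ortho (hVP q hqV) fun m hm => ?_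
    rw [map_sub, hqw]
    apply hw2
    exact ⟨monomial m 1, Submodule.subset_span ⟨m, by simpa [s] using hm, rfl⟩, hΦ _⟩
  refine ⟨q, hq, fun p hp => ?_⟩
  -- uniqueness, by the Pythagorean theorem
  have h1 : L (p * f - 1) = L ((p - q) * f) + L (q * f - 1) := by
    rw [← map_add]; congr 1; ring
  have h2 : inner ℂ (L ((p - q) * f)) (L (q * f - 1)) = 0 :=
    inner_mul_eq_zero (ortho_of_isOPA hq) (InP_sub hp.1 hq.1)
  have h3 := hp.2 q hq.1
  rw [normSq_eq, normSq_eq, h1, @norm_add_sq ℂ, h2] at h3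
  simp only [map_zero, mul_zero, add_zero] at h3
  have h4 : ‖L ((p - q) * f)‖ ^ 2 = 0 := le_antisymm (by linarith) (by positivity)
  have h5 : (p - q) * f = 0 := L_injective (by simpa using h4)
  exact sub_eq_zero.mp ((mul_eq_zero.mp h5).resolve_right hf)

end Unique

/-- Failure of the weak Shanks conjecture on the bidisk.  For every index `n`: the `n`-th
optimal polynomial approximants of `1 / f` in `H²(𝔻²)` (degree-lexicographic ordering) are
zero-free in the open bidisk for all polynomials `f` without zeros in the closed bidisk, if and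
only if `n ≤ 1`. -/
theorem main (n : ℕ) :
    (∀ f q : MvPolynomial (Fin 2) ℂ,
      (∀ z : Fin 2 → ℂ, (∀ i, ‖z i‖ ≤ 1) → eval z f ≠ 0) → IsOPA n f q →
        ∀ z : Fin 2 → ℂ, (∀ i, ‖z i‖ < 1) → eval z q ≠ 0) ↔ n ≤ 1 := by
  constructor
  · intro h
    by_contra hn
    obtain ⟨f, q, hf, hq, z, hz, h0⟩ := high (n := n) (by omega)
    exact h f q hf hq z hz h0
  · intro hn f q hf hq z hz
    exact low hn hf hq z hz

end Pool.Agent.Results.MP_52e642_an.WeakShanks
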